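import Pool.Agent.Helper56.TH.Iface

/-!
# Block T11 of MP_6f1bc5_lc: from thin-HT to `ACA₀` (bridge and induction on formulas)
-/

set_option linter.unusedSectionVars false

universe u

namespace Pool.Agent.Helper56.TH

open Classical

/-- The frame structure on the numbers of a model, compatible with the model. -/
structure Compat (A : L2.{u}) [CommSemiring A.N] [LinearOrder A.N] : Prop where
  add : ∀ x y : A.N, x + y = A.add x y
  mul : ∀ x y : A.N, x * y = A.mul x y
  zero : (0 : A.N) = A.zero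
  one : (1 : A.N) = A.one
  lt : ∀ x y : A.N, x < y ↔ A.lt x y

variable {A : L2.{u}} [CommSemiring A.N] [LinearOrder A.N] [IsStrictOrderedRing A.N]
  [CanonicallyOrderedAdd A.N]

theorem Compat.pair (hc : Compat A) (x y : A.N) : A.pair x y = pr x y := by
  unfold L2.pair pr
  rw [hc.add, hc.mul, hc.add]

theorem fn_of_isFun (h : Base A.sets) (hc : Compat A) {f : A.N → A.N} (hf : A.IsFun f) :
    Fn A.sets f := by
  have hG : Dec A.sets (fun p => ∃ n, p = pr n (f n)) := by
    have : {p | ∃ n, p = A.pair n (f n)} ∈ A.sets := hf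
    simp only [hc.pair] at this
    exact this
  refine h.congr (h.comp hG (h.fn_pr h.fn_p1 h.fn_p2)) fun p => ?_
  constructor
  · rintro ⟨n, hn⟩
    obtain ⟨h1, h2⟩ := h.pr_inj hn
    rw [h1, h2]
  · intro hp
    exact ⟨p1 p, by rw [hp]⟩

theorem isFun_of_fn (h : Base A.sets) (hc : Compat A) {f : A.N → A.N} (hf : Fn A.sets f) :
    A.IsFun f := by
  unfold L2.IsFun
  have : Dec A.sets (fun p => ∃ n, p = pr n (f n)) := by
    refine h.congr (h.and (h.eq (h.fn_pr h.fn_p1 h.fn_p2) h.fn_id) hf) fun p => ?_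
    constructor
    · rintro ⟨h1, h2⟩
      exact ⟨p1 p, by rw [h2]; exact h1.symm⟩
    · rintro ⟨n, rfl⟩
      simp only [h.p1_pr, h.p2_pr, and_self]
  simp only [hc.pair]
  exact this

theorem thinF_of_thinHT (h : Base A.sets) (hc : Compat A) (hT : ThinHT A) : ThinF A.sets := by
  intro c hcf
  obtain ⟨X, hX, hinf, i, hi⟩ := hT c (isFun_of_fn h hc hcf)
  refine ⟨X, hX, fun b => ?_, i, fun F hF hFX hFn x hx => ?_⟩
  · obtain ⟨x, hx, hbx⟩ := hinf b
    exact ⟨x, hx, (hc.lt _ _).2 hbx⟩
  · apply hi F hF hFX hFn x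
    obtain ⟨g, hg, h0, h1, h2, b, hb, hgb⟩ := hx
    refine ⟨g, isFun_of_fn h hc hg, ?_, ?_, ?_, b, ?_, hgb⟩
    · rw [← hc.zero]; exact h0
    · intro n hn
      rw [← hc.one, ← hc.add, ← hc.add]; exact h1 n hn
    · intro n hn
      rw [← hc.one, ← hc.add]; exact h2 n hn
    · intro n hn
      exact (hc.lt _ _).1 (hb n hn)

/-- decoding of assignments -/
noncomputable def dcd : (n : ℕ) → A.N → (Fin n → A.N)
  | 0, _ => Fin.elim0
  | n + 1, x => Fin.cons (p1 x) (dcd n (p2 x))

theorem dcd_fn (h : Base A.sets) : ∀ (n : ℕ) (i : Fin n), Fn A.sets (fun x => dcd n x i) := by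
  intro n
  induction n with
  | zero => intro i; exact i.elim0
  | succ n ih =>
    intro i
    refine Fin.cases ?_ (fun j => ?_) i
    · exact h.fn_p1
    · exact h.fn_comp (ih j) h.fn_p2

theorem val_fn (h : Base A.sets) (hc : Compat A) {n : ℕ} (t : Tm A n) :
    Fn A.sets (fun x => t.val (dcd n x)) := by
  induction t with
  | var i => exact dcd_fn h n i
  | par a => exact h.fn_const a
  | zero => exact h.fn_const _
  | one => exact h.fn_const _
  | add s t hs ht =>
    have := h.fn_add hs ht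
    simp only [hc.add] at this
    exact this
  | mul s t hs ht =>
    have := h.fn_mul hs ht
    simp only [hc.mul] at this
    exact this

theorem dcd_pr (h : Base A.sets) (n : ℕ) (x y : A.N) :
    dcd (n + 1) (pr x y) = (Fin.cons x (dcd n y) : Fin (n + 1) → A.N) := by
  show (Fin.cons (p1 (pr x y)) (dcd n (p2 (pr x y))) : Fin (n + 1) → A.N) = _
  rw [h.p1_pr, h.p2_pr]

theorem sat_dec (h : Base A.sets) (hc : Compat A) (hS : SigmaCA A.sets) {n : ℕ} (φ : Fm A n) :
    Dec A.sets (fun x => φ.Sat (dcd n x)) := by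
  induction φ with
  | eq s t => exact h.eq (val_fn h hc s) (val_fn h hc t)
  | lt s t =>
    refine h.congr (h.lt (val_fn h hc s) (val_fn h hc t)) fun x => ?_
    exact hc.lt _ _
  | mem t X hX =>
    have hX' : Dec A.sets (fun x => x ∈ X) := hX
    exact h.comp hX' (val_fn h hc t)
  | not φ ih => exact h.not ih
  | and φ ψ ih1 ih2 => exact h.and ih1 ih2
  | ball t φ ih =>
    have h1 : Dec₂ A.sets (fun y x => φ.Sat (Fin.cons y (dcd _ x))) := by
      refine h.congr (h.comp ih (h.fn_pr h.fn_p1 h.fn_p2)) fun p => ?_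
      rw [dcd_pr h]
    refine h.congr (h.ball (val_fn h hc t) h1) fun x => ?_
    constructor
    · intro hx y hy
      exact hx y ((hc.lt _ _).2 hy)
    · intro hx y hy
      exact hx y ((hc.lt _ _).1 hy)
  | all φ ih =>
    have h1 : Dec₂ A.sets (fun y x => ¬ φ.Sat (Fin.cons y (dcd _ x))) := by
      refine h.not ?_
      refine h.congr (h.comp ih (h.fn_pr h.fn_p1 h.fn_p2)) fun p => ?_
      rw [dcd_pr h]
    refine h.congr (h.not (hS _ h1)) fun x => ?_
    constructor
    · intro hx y
      by_contra hy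
      exact hx ⟨y, hy⟩
    · rintro hx ⟨y, hy⟩
      exact hy (hx y)

theorem aca_of_sigmaCA (hA : RCA0 A) (h : Base A.sets) (hc : Compat A) (hS : SigmaCA A.sets) :
    ACA0 A := by
  refine ⟨hA.basic, ?_, ?_⟩
  · intro X hX h0 hs n
    have hX' : Dec A.sets (fun x => x ∈ X) := hX
    refine h.ind hX' (by rw [hc.zero]; exact h0) (fun x hx => ?_) n
    have := hs x hx
    rw [hc.add, hc.one]
    exact this
  · intro φ
    have h1 := h.comp (sat_dec h hc hS φ) (h.fn_pr h.fn_id (h.fn_const 0))
    refine h.congr h1 fun n => ?_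
    have : dcd 1 (pr n 0) = ![n] := by
      rw [dcd_pr h]
      funext i
      fin_cases i
      rfl
    rw [this]

end Pool.Agent.Helper56.TH
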